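import Mathlib

/-!
# Bhargava factorials of the primes in prime triplets: the conjectured ratio is false

The file defines `p`-orderings of a set of integers, the numbers `ν_k(X,p)`, Bhargava's
factorials `n!_X`, the set of all primes and the set of the primes occurring in a prime triplet
`(p, p+2, p+6)`, and refutes the conjectured formula for the ratio of the two factorials.
-/

namespace Pool.Agent.Results.MP_1b3ee4_nt.Disproof

open Finset

/-- `w p a` is the largest power of `p` dividing `a` (used for nonzero `a`). -/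
def w (p : ℕ) (a : ℤ) : ℕ := p ^ padicValInt p a

/-- `IsPOrdering X p n a`: the terms `a 0, a 1, ..., a n` are the first `n + 1` terms of a
`p`-ordering of `X`: every `a k` (`k ≤ n`) is an element of `X` different from the earlier terms,
and it minimises `w p (∏ i < k, (x - a i))` among all elements `x` of `X` different from the
earlier terms (that is, for which the product is nonzero). -/
def IsPOrdering (X : Set ℤ) (p n : ℕ) (a : ℕ → ℤ) : Prop :=
  ∀ k ≤ n, a k ∈ X ∧ (∀ i < k, a k ≠ a i) ∧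
    ∀ x ∈ X, (∀ i < k, x ≠ a i) →
      w p (∏ i ∈ range k, (a k - a i)) ≤ w p (∏ i ∈ range k, (x - a i))

/-- The set of the values `w p (∏ i < k, (a k - a i))` over all `p`-orderings of `X`
(it has exactly one element when `X` has more than `k` elements,
see `exists_isPOrdering` and `nuSet_subsingleton`). -/
def nuSet (X : Set ℤ) (p k : ℕ) : Set ℕ :=
  {m | ∃ a, IsPOrdering X p k a ∧ m = w p (∏ i ∈ range k, (a k - a i))}

/-- The number `ν_k(X, p)`. -/
noncomputable def nu (X : Set ℤ) (p k : ℕ) : ℕ := sInf (nuSet X p k)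

/-- Bhargava's factorial `n!_X`: the product over all primes `p` of `ν_n(X, p)`. -/
noncomputable def gfact (X : Set ℤ) (n : ℕ) : ℕ := ∏ᶠ (p : ℕ) (_ : p.Prime), nu X p n

/-- `n!_X` is defined: `X` has more than `n` elements. -/
def Defined (X : Set ℤ) (n : ℕ) : Prop := (n : ℕ∞) < X.encard

/-- The set of all primes, as a set of integers. -/
def allPrimes : Set ℤ := {q | ∃ p : ℕ, p.Prime ∧ q = p}

/-- The set of the primes that occur in a triple of primes `p, p + 2, p + 6`. -/
def tripletPrimes : Set ℤ :=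
  {q | ∃ p : ℕ, p.Prime ∧ (p + 2).Prime ∧ (p + 6).Prime ∧
    (q = p ∨ q = (p + 2 : ℕ) ∨ q = (p + 6 : ℕ))}

/-- The value of `n!_{P_3} / n!_P` predicted by the conjecture. -/
def predicted (n : ℕ) : ℕ := if Even n then Nat.factorial 3 * w 2 n * w 3 n else 2

/-! ### Basic facts -/

lemma w_pos {p : ℕ} (hp : p.Prime) (a : ℤ) : 0 < w p a := pow_pos hp.pos _

lemma w_eq_one_of_not_dvd {p : ℕ} {a : ℤ} (h : ¬ (p : ℤ) ∣ a) : w p a = 1 := by
  unfold w
  rw [padicValInt.eq_zero_of_not_dvd h, pow_zero]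

lemma dvd_of_w_ne_one {p : ℕ} {a : ℤ} (h : w p a ≠ 1) : (p : ℤ) ∣ a := by
  by_contra h'
  exact h (w_eq_one_of_not_dvd h')

lemma dvd_w {p : ℕ} (hp : p.Prime) {a : ℤ} (ha : a ≠ 0) (h : (p : ℤ) ∣ a) : p ∣ w p a := by
  unfold w
  apply dvd_pow_self
  have := Fact.mk hp
  intro h0
  have h1 := (padicValInt_dvd_iff (p := p) 1 a).1 (by simpa using h)
  omega

lemma w_dvd {p : ℕ} (a : ℤ) : (w p a : ℤ) ∣ a := by
  unfold w
  push_cast
  exact padicValInt_dvd a

lemma w_mono {p : ℕ} (hp : p.Prime) {a b : ℤ} (ha : a ≠ 0) (hb : b ≠ 0) (h : a ∣ b) :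
    w p a ≤ w p b := by
  have := Fact.mk hp
  unfold w
  apply Nat.pow_le_pow_right hp.pos
  obtain ⟨c, rfl⟩ := h
  have hc : c ≠ 0 := by rintro rfl; simp at hb
  rw [padicValInt.mul ha hc]
  omega

lemma IsPOrdering.mono {X : Set ℤ} {p n : ℕ} {a : ℕ → ℤ} (h : IsPOrdering X p n a) {m : ℕ}
    (hm : m ≤ n) : IsPOrdering X p m a := fun k hk => h k (hk.trans hm)

/-- A `p`-ordering of length `n + 1` exists as soon as `X` has more than `n` elements. -/
theorem exists_isPOrdering (X : Set ℤ) (p : ℕ) (n : ℕ) (h : Defined X n) :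
    ∃ a, IsPOrdering X p n a := by
  induction n with
  | zero =>
    have hne : X.Nonempty := by
      rw [Set.nonempty_iff_ne_empty]
      rintro rfl
      simp [Defined] at h
    obtain ⟨x, hx⟩ := hne
    refine ⟨fun _ => x, ?_⟩
    intro k hk
    obtain rfl : k = 0 := by omega
    simp [hx]
  | succ n ih =>
    have h' : Defined X n := lt_of_le_of_lt (by exact_mod_cast Nat.le_succ n) h
    obtain ⟨a, ha⟩ := ih h'
    -- the elements of `X` not yet used
    let Y : Set ℤ := {x | x ∈ X ∧ ∀ i < n + 1, x ≠ a i}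
    have hY : Y.Nonempty := by
      by_contra hemp
      rw [Set.not_nonempty_iff_eq_empty] at hemp
      have hsub : X ⊆ ((range (n + 1)).image a : Finset ℤ) := by
        intro x hx
        by_contra hxa
        have : x ∈ Y := by
          refine ⟨hx, fun i hi hxi => hxa ?_⟩
          simp only [coe_image, coe_range, Set.mem_image, Set.mem_Iio]
          exact ⟨i, hi, hxi.symm⟩
        rw [hemp] at this
        exact this
      have h1 := Set.encard_le_encard hsub
      rw [Set.encard_coe_eq_coe_finsetCard] at h1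
      have h2 : ((range (n + 1)).image a).card ≤ n + 1 := by
        simpa using card_image_le (s := range (n + 1)) (f := a)
      have h3 : ((n + 1 : ℕ) : ℕ∞) < ((n + 1 : ℕ) : ℕ∞) :=
        lt_of_lt_of_le h (h1.trans (by exact_mod_cast h2))
      exact lt_irrefl _ h3
    let f : ℤ → ℕ := fun x => w p (∏ i ∈ range (n + 1), (x - a i))
    obtain ⟨y, hyY, hymin⟩ : ∃ y ∈ Y, ∀ x ∈ Y, f y ≤ f x := by
      have hS : (f '' Y).Nonempty := hY.image f
      obtain ⟨y, hy, hfy⟩ := Nat.sInf_mem hS
      refine ⟨y, hy, fun x hx => ?_⟩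
      rw [hfy]
      exact Nat.sInf_le ⟨x, hx, rfl⟩
    refine ⟨Function.update a (n + 1) y, ?_⟩
    intro k hk
    rcases Nat.lt_or_ge k (n + 1) with hlt | hge
    · have hk' : ∀ i < k, Function.update a (n + 1) y i = a i := by
        intro i hi
        rw [Function.update_of_ne (by omega)]
      have hkk : Function.update a (n + 1) y k = a k := by
        rw [Function.update_of_ne (by omega)]
      obtain ⟨h1, h2, h3⟩ := ha k (by omega)
      refine ⟨by rwa [hkk], ?_, ?_⟩
      · intro i hi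
        rw [hkk, hk' i hi]
        exact h2 i hi
      · intro x hx hxi
        have e1 : ∏ i ∈ range k, (Function.update a (n + 1) y k - Function.update a (n + 1) y i)
            = ∏ i ∈ range k, (a k - a i) := by
          refine prod_congr rfl fun i hi => ?_
          rw [hkk, hk' i (mem_range.1 hi)]
        have e2 : ∏ i ∈ range k, (x - Function.update a (n + 1) y i)
            = ∏ i ∈ range k, (x - a i) := by
          refine prod_congr rfl fun i hi => ?_
          rw [hk' i (mem_range.1 hi)]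
        rw [e1, e2]
        exact h3 x hx (fun i hi => by rw [← hk' i hi]; exact hxi i hi)
    · obtain rfl : k = n + 1 := by omega
      have hk' : ∀ i < n + 1, Function.update a (n + 1) y i = a i := by
        intro i hi
        rw [Function.update_of_ne (by omega)]
      have hkk : Function.update a (n + 1) y (n + 1) = y := Function.update_self ..
      refine ⟨by rw [hkk]; exact hyY.1, ?_, ?_⟩
      · intro i hi
        rw [hkk, hk' i hi]
        exact hyY.2 i hi
      · intro x hx hxi
        have e1 : ∏ i ∈ range (n + 1),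
            (Function.update a (n + 1) y (n + 1) - Function.update a (n + 1) y i)
            = ∏ i ∈ range (n + 1), (y - a i) := by
          refine prod_congr rfl fun i hi => ?_
          rw [hkk, hk' i (mem_range.1 hi)]
        have e2 : ∏ i ∈ range (n + 1), (x - Function.update a (n + 1) y i)
            = ∏ i ∈ range (n + 1), (x - a i) := by
          refine prod_congr rfl fun i hi => ?_
          rw [hk' i (mem_range.1 hi)]
        rw [e1, e2]
        exact hymin x ⟨hx, fun i hi => by rw [← hk' i hi]; exact hxi i hi⟩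


/-! ### Independence of the choice of the `p`-ordering (Bhargava) -/

lemma w_mul {p : ℕ} (hp : p.Prime) {a b : ℤ} (ha : a ≠ 0) (hb : b ≠ 0) :
    w p (a * b) = w p a * w p b := by
  have := Fact.mk hp
  unfold w
  rw [padicValInt.mul ha hb, pow_add]

lemma w_prod {p : ℕ} (hp : p.Prime) {ι : Type*} (s : Finset ι) (f : ι → ℤ)
    (h : ∀ i ∈ s, f i ≠ 0) : w p (∏ i ∈ s, f i) = ∏ i ∈ s, w p (f i) := by
  classical
  induction s using Finset.induction_on with
  | empty => simp [w]
  | insert a s ha ih =>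
    rw [prod_insert ha, prod_insert ha, w_mul hp (h a (mem_insert_self _ _)),
      ih (fun i hi => h i (mem_insert_of_mem hi))]
    exact prod_ne_zero_iff.2 fun i hi => h i (mem_insert_of_mem hi)

/-- the `k`-th term of the `p`-sequence read off a given sequence -/
def val (p : ℕ) (a : ℕ → ℤ) (k : ℕ) : ℕ := w p (∏ i ∈ range k, (a k - a i))

lemma IsPOrdering.prod_ne_zero {X : Set ℤ} {p n : ℕ} {a : ℕ → ℤ} (h : IsPOrdering X p n a)
    {k : ℕ} (hk : k ≤ n) : ∏ i ∈ range k, (a k - a i) ≠ 0 :=
  prod_ne_zero_iff.2 fun i hi => sub_ne_zero.2 ((h k hk).2.1 i (mem_range.1 hi))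

lemma IsPOrdering.val_dvd {X : Set ℤ} {p n : ℕ} {a : ℕ → ℤ} (h : IsPOrdering X p n a)
    {k : ℕ} (hk : k ≤ n) {x : ℤ} (hx : x ∈ X) :
    (val p a k : ℤ) ∣ ∏ i ∈ range k, (x - a i) := by
  by_cases hxa : ∀ i < k, x ≠ a i
  · have h1 := (h k hk).2.2 x hx hxa
    refine dvd_trans ?_ (w_dvd (p := p) _)
    unfold val
    unfold w at h1 ⊢
    rcases Nat.lt_or_ge 1 p with hp | hp
    · have h2 := (Nat.pow_le_pow_iff_right hp).1 h1
      exact_mod_cast pow_dvd_pow p h2
    · interval_cases p
      · simp [padicValInt]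
      · simp
  · push Not at hxa
    obtain ⟨i, hi, hxi⟩ := hxa
    rw [prod_eq_zero (mem_range.2 hi) (by rw [hxi, sub_self])]
    exact dvd_zero _

lemma prod_val_dvd {X : Set ℤ} {p n : ℕ} {a b : ℕ → ℤ} (ha : IsPOrdering X p n a)
    (hb : ∀ k ≤ n, b k ∈ X) :
    ((∏ k ∈ range (n + 1), val p a k : ℕ) : ℤ) ∣
      ∏ j ∈ range (n + 1), ∏ i ∈ range j, (b j - b i) := by
  have h1 : (∏ j ∈ range (n + 1), ∏ i ∈ range j, (b j - b i))
      = (Matrix.vandermonde (fun i : Fin (n + 1) => b i)).det := by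
    rw [Matrix.det_vandermonde]
    have e : ∀ i : Fin (n + 1), ∏ j ∈ Ioi i, (b j - b i)
        = ∏ j : Fin (n + 1), if i < j then (b j - b i) else 1 := by
      intro i
      rw [← prod_filter]
      congr 1
      ext j
      simp
    simp_rw [e]
    rw [prod_comm]
    rw [← Fin.prod_univ_eq_prod_range (fun j => ∏ i ∈ range j, (b j - b i)) (n + 1)]
    refine prod_congr rfl fun j _ => ?_
    have e2 : ∏ i : Fin (n + 1), (if i < j then (b j - b i) else 1)
        = ∏ i ∈ range (n + 1), (if i < (j : ℕ) then (b j - b i) else 1) := by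
      rw [← Fin.prod_univ_eq_prod_range (fun i => if i < (j : ℕ) then (b j - b i) else 1) (n + 1)]
      rfl
    rw [e2, ← prod_filter]
    congr 1
    ext i
    simp only [mem_range, mem_filter]
    have := j.2
    omega
  let P : Fin (n + 1) → Polynomial ℤ := fun k =>
    ∏ i ∈ range (k : ℕ), (Polynomial.X - Polynomial.C (a i))
  have hdeg : ∀ k, (P k).natDegree = k := by
    intro k
    have := Polynomial.natDegree_prod_of_monic (range (k : ℕ))
      (fun i => (Polynomial.X - Polynomial.C (a i))) (fun i _ => Polynomial.monic_X_sub_C _)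
    simp only [Polynomial.natDegree_X_sub_C, sum_const, card_range, smul_eq_mul, mul_one] at this
    exact this
  have hmonic : ∀ k, (P k).Monic := fun k =>
    Polynomial.monic_prod_of_monic _ _ fun i _ => Polynomial.monic_X_sub_C _
  rw [h1, Matrix.det_eval_matrixOfPolynomials_eq_det_vandermonde _ P hdeg hmonic]
  have hdvd : ∀ i j : Fin (n + 1), (val p a j : ℤ) ∣ (P j).eval (b i) := by
    intro i j
    have : (P j).eval (b i) = ∏ l ∈ range (j : ℕ), (b i - a l) := by
      simp [P, Polynomial.eval_prod]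
    rw [this]
    exact ha.val_dvd (Nat.lt_succ_iff.1 j.2) (hb i (Nat.lt_succ_iff.1 i.2))
  choose c hc using hdvd
  have hM : (Matrix.of fun i j => (P j).eval ((fun i : Fin (n + 1) => b i) i))
      = Matrix.of fun (i j : Fin (n + 1)) => (val p a (j : ℕ) : ℤ) * (Matrix.of c) i j := by
    ext i j
    simp only [Matrix.of_apply]
    exact hc i j
  rw [hM, Matrix.det_mul_row (fun j : Fin (n + 1) => (val p a (j : ℕ) : ℤ)) (Matrix.of c),
    Fin.prod_univ_eq_prod_range (fun k => (val p a k : ℤ)) (n + 1)]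
  push_cast
  exact dvd_mul_right _ _

lemma prod_val_le {X : Set ℤ} {p n : ℕ} (hp : p.Prime) {a b : ℕ → ℤ}
    (ha : IsPOrdering X p n a) (hb : IsPOrdering X p n b) :
    ∏ k ∈ range (n + 1), val p a k ≤ ∏ k ∈ range (n + 1), val p b k := by
  have := Fact.mk hp
  have h1 := prod_val_dvd ha (fun k hk => (hb k hk).1)
  have hne : ∀ j ∈ range (n + 1), ∏ i ∈ range j, (b j - b i) ≠ 0 := fun j hj =>
    hb.prod_ne_zero (Nat.lt_succ_iff.1 (mem_range.1 hj))
  have h2 : w p (∏ j ∈ range (n + 1), ∏ i ∈ range j, (b j - b i))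
      = ∏ k ∈ range (n + 1), val p b k := w_prod hp _ _ hne
  rw [← h2]
  have h3 : ∏ k ∈ range (n + 1), val p a k
      = p ^ (∑ k ∈ range (n + 1), padicValInt p (∏ i ∈ range k, (a k - a i))) := by
    rw [← prod_pow_eq_pow_sum]
    rfl
  rw [h3] at h1 ⊢
  unfold w
  apply Nat.pow_le_pow_right hp.pos
  have h4 := (padicValInt_dvd_iff (p := p) _ _).1 (by exact_mod_cast h1)
  rcases h4 with h4 | h4
  · exact absurd h4 (prod_ne_zero_iff.2 hne)
  · exact h4

/-- The value `w p (∏ i < n, (a n - a i))` does not depend on the `p`-ordering. -/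
theorem val_eq_val {X : Set ℤ} {p n : ℕ} (hp : p.Prime) {a b : ℕ → ℤ}
    (ha : IsPOrdering X p n a) (hb : IsPOrdering X p n b) : val p a n = val p b n := by
  have h1 : ∏ k ∈ range (n + 1), val p a k = ∏ k ∈ range (n + 1), val p b k :=
    le_antisymm (prod_val_le hp ha hb) (prod_val_le hp hb ha)
  rcases n with _ | n
  · simp [val]
  · have h2 : ∏ k ∈ range (n + 1), val p a k = ∏ k ∈ range (n + 1), val p b k :=
      le_antisymm (prod_val_le hp (ha.mono (Nat.le_succ n)) (hb.mono (Nat.le_succ n)))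
        (prod_val_le hp (hb.mono (Nat.le_succ n)) (ha.mono (Nat.le_succ n)))
    rw [prod_range_succ, prod_range_succ (fun k => val p b k), h2] at h1
    have hpos : 0 < ∏ k ∈ range (n + 1), val p b k := prod_pos fun k _ => w_pos hp _
    exact Nat.eq_of_mul_eq_mul_left hpos h1

theorem nuSet_subsingleton (X : Set ℤ) {p : ℕ} (hp : p.Prime) (k : ℕ) :
    (nuSet X p k).Subsingleton := by
  rintro m ⟨a, ha, rfl⟩ m' ⟨b, hb, rfl⟩
  exact val_eq_val hp ha hb

/-- `ν_k(X, p)` is computed by any `p`-ordering. -/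
theorem nu_eq {X : Set ℤ} {p k : ℕ} (hp : p.Prime) {a : ℕ → ℤ} (ha : IsPOrdering X p k a) :
    nu X p k = w p (∏ i ∈ range k, (a k - a i)) := by
  have hmem : w p (∏ i ∈ range k, (a k - a i)) ∈ nuSet X p k := ⟨a, ha, rfl⟩
  exact nuSet_subsingleton X hp k (Nat.sInf_mem ⟨_, hmem⟩) hmem


/-! ### Two criteria -/

/-- If `X` contains `n + 1` integers that are pairwise incongruent modulo `p`,
then `ν_n(X, p) = 1`. -/
theorem nu_eq_one {X : Set ℤ} {p n : ℕ} (hp : p.Prime) (S : Finset ℤ) (hSX : ∀ x ∈ S, x ∈ X)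
    (hcard : n < S.card) (hS : ∀ x ∈ S, ∀ y ∈ S, x ≠ y → ¬ (p : ℤ) ∣ x - y) :
    nu X p n = 1 := by
  have hdef : Defined X n := by
    have h1 : (S : Set ℤ) ⊆ X := hSX
    have h2 := Set.encard_le_encard h1
    rw [Set.encard_coe_eq_coe_finsetCard] at h2
    exact lt_of_lt_of_le (by exact_mod_cast hcard) h2
  obtain ⟨a, ha⟩ := exists_isPOrdering X p n hdef
  rw [nu_eq hp ha]
  -- some element of `S` is incongruent to all `a i`, `i < n`
  have hpi := Nat.prime_iff_prime_int.1 hp
  obtain ⟨x, hxS, hx⟩ : ∃ x ∈ S, ∀ i < n, ¬ (p : ℤ) ∣ x - a i := by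
    by_contra hcon
    push Not at hcon
    choose! g hg1 hg2 using hcon
    have hinj : Set.InjOn g S := by
      intro x hx y hy hxy
      by_contra hne
      apply hS x hx y hy hne
      have h1 := hg2 x hx
      have h2 := hg2 y hy
      rw [hxy] at h1
      have h3 := dvd_sub h1 h2
      have h4 : x - a (g y) - (y - a (g y)) = x - y := by ring
      rwa [h4] at h3
    have hle := card_le_card_of_injOn g (t := range n) (fun x hx => mem_range.2 (hg1 x hx)) hinj
    rw [card_range] at hle
    omega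
  have hxa : ∀ i < n, x ≠ a i := by
    intro i hi h
    apply hx i hi
    rw [h, sub_self]
    exact dvd_zero _
  have h1 := (ha n le_rfl).2.2 x (hSX x hxS) hxa
  have h2 : w p (∏ i ∈ range n, (x - a i)) = 1 := by
    apply w_eq_one_of_not_dvd
    intro hd
    obtain ⟨i, hi, hdi⟩ := (Prime.dvd_finsetProd_iff hpi _).1 hd
    exact hx i (mem_range.1 hi) hdi
  have h3 := w_pos hp (∏ i ∈ range n, (a n - a i))
  omega

/-- If no element of `X` is divisible by the prime `p`, then `p` divides `ν_{p-1}(X, p)`. -/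
theorem dvd_nu {X : Set ℤ} {p : ℕ} (hp : p.Prime) (hX : ∀ x ∈ X, ¬ (p : ℤ) ∣ x)
    (hdef : Defined X (p - 1)) : p ∣ nu X p (p - 1) := by
  obtain ⟨a, ha⟩ := exists_isPOrdering X p (p - 1) hdef
  rw [nu_eq hp ha]
  have hpi := Nat.prime_iff_prime_int.1 hp
  by_contra hnd
  have hnot : ∀ i < p - 1, ¬ (p : ℤ) ∣ a (p - 1) - a i := by
    intro i hi hd
    exact hnd (dvd_w hp (ha.prod_ne_zero le_rfl) (hd.trans (dvd_prod_of_mem _ (mem_range.2 hi))))
  -- all terms are pairwise incongruent
  have hpair : ∀ j ≤ p - 1, ∀ i < j, ¬ (p : ℤ) ∣ a j - a i := by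
    intro j hj i hij hd
    rcases Nat.lt_or_ge j (p - 1) with hlt | hge
    · have h1 := (ha j hj).2.2 (a (p - 1)) (ha _ le_rfl).1
        (fun l hl => (ha (p - 1) le_rfl).2.1 l (hl.trans hlt))
      have h2 : w p (∏ l ∈ range j, (a (p - 1) - a l)) = 1 := by
        apply w_eq_one_of_not_dvd
        intro hd'
        obtain ⟨l, hl, hdl⟩ := (Prime.dvd_finsetProd_iff hpi _).1 hd'
        exact hnot l ((mem_range.1 hl).trans hlt) hdl
      have h3 : p ∣ w p (∏ l ∈ range j, (a j - a l)) :=
        dvd_w hp (ha.prod_ne_zero hj) (hd.trans (dvd_prod_of_mem _ (mem_range.2 hij)))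
      have h4 := Nat.le_of_dvd (w_pos hp _) h3
      have h5 := hp.two_le
      omega
    · obtain rfl : j = p - 1 := by omega
      exact hnot i hij hd
  -- the residues of `a 0, ..., a (p - 1)` are `p` distinct nonzero classes
  have hp1 := hp.one_lt
  have hpos : (0 : ℤ) < p := by exact_mod_cast hp.pos
  let f : ℕ → ℕ := fun i => (a i % p).toNat
  have hf : ∀ i, ((f i : ℕ) : ℤ) = a i % p := fun i =>
    Int.toNat_of_nonneg (Int.emod_nonneg _ hpos.ne')
  have hmaps : ∀ i ∈ range p, f i ∈ Ioo 0 p := by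
    intro i hi
    have h1 : a i % (p : ℤ) < p := Int.emod_lt_of_pos _ hpos
    have h2 := hf i
    have h3 : a i % (p : ℤ) ≠ 0 := fun h =>
      hX (a i) (ha i (by have := mem_range.1 hi; omega)).1 (Int.dvd_of_emod_eq_zero h)
    rw [mem_Ioo]
    omega
  have hinj : Set.InjOn f (range p) := by
    intro i hi j hj hij
    simp only [coe_range, Set.mem_Iio] at hi hj
    by_contra hne
    have e : a i % (p : ℤ) = a j % (p : ℤ) := by
      rw [← hf i, ← hf j]
      exact_mod_cast hij
    rcases lt_or_gt_of_ne hne with h | h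
    · exact hpair j (by omega) i h (Int.dvd_iff_emod_eq_zero.2 (by
        rw [Int.sub_emod, e, sub_self, Int.zero_emod]))
    · exact hpair i (by omega) j h (Int.dvd_iff_emod_eq_zero.2 (by
        rw [Int.sub_emod, e, sub_self, Int.zero_emod]))
  have hle := card_le_card_of_injOn f hmaps hinj
  rw [card_range, Nat.card_Ioo] at hle
  omega

/-- Every `ν_n(X, p)` is a power of `p` when it is computed by a `p`-ordering. -/
lemma nu_eq_pow {X : Set ℤ} {p n : ℕ} (hp : p.Prime) (hdef : Defined X n) :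
    ∃ e, nu X p n = p ^ e := by
  obtain ⟨a, ha⟩ := exists_isPOrdering X p n hdef
  exact ⟨_, nu_eq hp ha⟩

/-- If `X` has `n + 1` elements in the interval `[u, v]`, then `ν_n(X, p) = 1` for `p > v - u`;
hence the product defining `n!_X` is finite. -/
theorem gfact_eq_prod {X : Set ℤ} {n B : ℕ} (S : Finset ℤ) (hSX : ∀ x ∈ S, x ∈ X)
    (hcard : n < S.card) (hB : ∀ x ∈ S, ∀ y ∈ S, x - y < B) :
    gfact X n = ∏ p ∈ (range B).filter Nat.Prime, nu X p n := by
  unfold gfact
  apply finprod_cond_eq_prod_of_cond_iff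
  intro p hp
  rw [mem_filter, mem_range]
  constructor
  · intro hprime
    refine ⟨?_, hprime⟩
    by_contra hge
    push Not at hge
    apply hp
    refine nu_eq_one hprime S hSX hcard ?_
    intro x hx y hy hxy hd
    have h1 := hB x hx y hy
    have h2 := hB y hy x hx
    have h3 : (B : ℤ) ≤ p := by exact_mod_cast hge
    rcases lt_or_gt_of_ne hxy with h | h
    · have h4 : (p : ℤ) ∣ y - x := by rw [← neg_sub]; exact (dvd_neg).2 hd
      have := Int.le_of_dvd (by omega) h4
      omega
    · have := Int.le_of_dvd (by omega) hd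
      omega
  · exact fun h => h.2


/-! ### The sets `P` and `P_3` -/

/-- the first `29` elements of `P_3` -/
def S3 : Finset ℤ :=
  {5, 7, 11, 13, 17, 19, 23, 41, 43, 47, 101, 103, 107, 109, 113, 191, 193, 197, 227, 229, 233,
    311, 313, 317, 347, 349, 353, 461, 463}

/-- primes representing all residue classes modulo `29` -/
def S29 : Finset ℤ :=
  {29, 59, 2, 3, 149, 5, 151, 7, 37, 67, 97, 11, 41, 13, 43, 73, 103, 17, 47, 19, 107, 79, 109,
    23, 53, 83, 113, 317, 173}

lemma mem_triplet (p : ℕ) (h0 : p.Prime) (h2 : (p + 2).Prime) (h6 : (p + 6).Prime) (q : ℤ)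
    (hq : q = p ∨ q = (p + 2 : ℕ) ∨ q = (p + 6 : ℕ)) : q ∈ tripletPrimes :=
  ⟨p, h0, h2, h6, hq⟩

lemma S3_sub : ∀ x ∈ S3, x ∈ tripletPrimes := by
  intro x hx
  simp only [S3, mem_insert, mem_singleton] at hx
  have t : ∀ p : ℕ, p.Prime → (p + 2).Prime → (p + 6).Prime →
      (((p : ℕ) : ℤ) ∈ tripletPrimes ∧ ((p + 2 : ℕ) : ℤ) ∈ tripletPrimes ∧
        ((p + 6 : ℕ) : ℤ) ∈ tripletPrimes) := fun p h0 h2 h6 =>
    ⟨⟨p, h0, h2, h6, Or.inl rfl⟩, ⟨p, h0, h2, h6, Or.inr (Or.inl rfl)⟩,
      ⟨p, h0, h2, h6, Or.inr (Or.inr rfl)⟩⟩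
  have t5 := t 5 (by norm_num) (by norm_num) (by norm_num)
  have t11 := t 11 (by norm_num) (by norm_num) (by norm_num)
  have t17 := t 17 (by norm_num) (by norm_num) (by norm_num)
  have t41 := t 41 (by norm_num) (by norm_num) (by norm_num)
  have t101 := t 101 (by norm_num) (by norm_num) (by norm_num)
  have t107 := t 107 (by norm_num) (by norm_num) (by norm_num)
  have t191 := t 191 (by norm_num) (by norm_num) (by norm_num)
  have t227 := t 227 (by norm_num) (by norm_num) (by norm_num)
  have t311 := t 311 (by norm_num) (by norm_num) (by norm_num)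
  have t347 := t 347 (by norm_num) (by norm_num) (by norm_num)
  have t461 := t 461 (by norm_num) (by norm_num) (by norm_num)
  norm_num at t5 t11 t17 t41 t101 t107 t191 t227 t311 t347 t461
  rcases hx with rfl | rfl | rfl | rfl | rfl | rfl | rfl | rfl | rfl | rfl | rfl | rfl | rfl |
    rfl | rfl | rfl | rfl | rfl | rfl | rfl | rfl | rfl | rfl | rfl | rfl | rfl | rfl | rfl | rfl
  all_goals tauto

lemma S29_sub : ∀ x ∈ S29, x ∈ allPrimes := by
  intro x hx
  simp only [S29, mem_insert, mem_singleton] at hx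
  rcases hx with rfl | rfl | rfl | rfl | rfl | rfl | rfl | rfl | rfl | rfl | rfl | rfl | rfl |
    rfl | rfl | rfl | rfl | rfl | rfl | rfl | rfl | rfl | rfl | rfl | rfl | rfl | rfl | rfl | rfl
  · exact ⟨29, by norm_num, rfl⟩
  · exact ⟨59, by norm_num, rfl⟩
  · exact ⟨2, by norm_num, rfl⟩
  · exact ⟨3, by norm_num, rfl⟩
  · exact ⟨149, by norm_num, rfl⟩
  · exact ⟨5, by norm_num, rfl⟩
  · exact ⟨151, by norm_num, rfl⟩
  · exact ⟨7, by norm_num, rfl⟩
  · exact ⟨37, by norm_num, rfl⟩
  · exact ⟨67, by norm_num, rfl⟩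
  · exact ⟨97, by norm_num, rfl⟩
  · exact ⟨11, by norm_num, rfl⟩
  · exact ⟨41, by norm_num, rfl⟩
  · exact ⟨13, by norm_num, rfl⟩
  · exact ⟨43, by norm_num, rfl⟩
  · exact ⟨73, by norm_num, rfl⟩
  · exact ⟨103, by norm_num, rfl⟩
  · exact ⟨17, by norm_num, rfl⟩
  · exact ⟨47, by norm_num, rfl⟩
  · exact ⟨19, by norm_num, rfl⟩
  · exact ⟨107, by norm_num, rfl⟩
  · exact ⟨79, by norm_num, rfl⟩
  · exact ⟨109, by norm_num, rfl⟩
  · exact ⟨23, by norm_num, rfl⟩
  · exact ⟨53, by norm_num, rfl⟩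
  · exact ⟨83, by norm_num, rfl⟩
  · exact ⟨113, by norm_num, rfl⟩
  · exact ⟨317, by norm_num, rfl⟩
  · exact ⟨173, by norm_num, rfl⟩

lemma S3_card : S3.card = 29 := by decide

lemma S29_card : S29.card = 29 := by decide

lemma defined_triplet : Defined tripletPrimes 28 := by
  have h1 : (S3 : Set ℤ) ⊆ tripletPrimes := S3_sub
  have h2 := Set.encard_le_encard h1
  rw [Set.encard_coe_eq_coe_finsetCard, S3_card] at h2
  exact lt_of_lt_of_le (by norm_num) h2

lemma defined_all : Defined allPrimes 28 := by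
  have h1 : (S29 : Set ℤ) ⊆ allPrimes := S29_sub
  have h2 := Set.encard_le_encard h1
  rw [Set.encard_coe_eq_coe_finsetCard, S29_card] at h2
  exact lt_of_lt_of_le (by norm_num) h2

/-- `29` does not belong to a triple of primes `p, p + 2, p + 6`, and no other element of `P_3`
is divisible by `29`. -/
lemma not_dvd_of_mem_triplet : ∀ x ∈ tripletPrimes, ¬ ((29 : ℕ) : ℤ) ∣ x := by
  rintro x ⟨p, h0, h2, h6, hx⟩ hd
  have key : ∀ q : ℕ, q.Prime → ((29 : ℕ) : ℤ) ∣ (q : ℤ) → q = 29 := by
    intro q hq hqd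
    have h1 : 29 ∣ q := by exact_mod_cast hqd
    exact ((Nat.prime_dvd_prime_iff_eq (by norm_num) hq).1 h1).symm
  rcases hx with rfl | rfl | rfl
  · obtain rfl := key p h0 hd
    norm_num at h6
  · have := key _ h2 hd
    obtain rfl : p = 27 := by omega
    norm_num at h0
  · have := key _ h6 hd
    obtain rfl : p = 23 := by omega
    norm_num at h2

lemma nu_all : nu allPrimes 29 28 = 1 := by
  refine nu_eq_one (by norm_num) S29 S29_sub (by rw [S29_card]; norm_num) ?_
  decide

lemma bound_S3 : ∀ x ∈ S3, ∀ y ∈ S3, x - y < (500 : ℕ) := by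
  decide

lemma bound_S29 : ∀ x ∈ S29, ∀ y ∈ S29, x - y < (500 : ℕ) := by
  decide

lemma dvd_gfact_triplet : 29 ∣ gfact tripletPrimes 28 := by
  rw [gfact_eq_prod S3 S3_sub (by rw [S3_card]; norm_num) bound_S3]
  have h1 : (29 : ℕ) ∣ nu tripletPrimes 29 (29 - 1) :=
    dvd_nu (by norm_num) not_dvd_of_mem_triplet defined_triplet
  have h29 : 29 ∈ (range 500).filter Nat.Prime := by
    rw [mem_filter, mem_range]
    exact ⟨by norm_num, by norm_num⟩
  have h2 := dvd_prod_of_mem (fun p => nu tripletPrimes p 28) h29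
  exact dvd_trans h1 h2

lemma gfact_all_ne_zero : gfact allPrimes 28 ≠ 0 := by
  rw [gfact_eq_prod S29 S29_sub (by rw [S29_card]; norm_num) bound_S29]
  refine prod_ne_zero_iff.2 fun p hp => ?_
  obtain ⟨e, he⟩ := nu_eq_pow (mem_filter.1 hp).2 defined_all
  rw [he]
  exact pow_ne_zero _ (mem_filter.1 hp).2.ne_zero

lemma not_dvd_gfact_all : ¬ 29 ∣ gfact allPrimes 28 := by
  rw [gfact_eq_prod S29 S29_sub (by rw [S29_card]; norm_num) bound_S29]
  intro hd
  obtain ⟨p, hp, hpd⟩ := (Prime.dvd_finsetProd_iff (Nat.prime_iff.1 (by norm_num)) _).1 hd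
  have hprime := (mem_filter.1 hp).2
  by_cases h29 : p = 29
  · subst h29
    rw [nu_all] at hpd
    norm_num at hpd
  · obtain ⟨e, he⟩ := nu_eq_pow hprime defined_all
    rw [he] at hpd
    have h1 := (Nat.Prime.dvd_of_dvd_pow (by norm_num) hpd)
    exact h29 ((Nat.prime_dvd_prime_iff_eq (by norm_num) hprime).1 h1).symm

lemma predicted_28 : predicted 28 = 24 := by
  have h2 : w 2 ((28 : ℕ) : ℤ) = 4 := by
    unfold w
    rw [padicValInt.of_nat]
    have : padicValNat 2 28 = 2 := by
      have h : (28 : ℕ) = 2 ^ 2 * 7 := by norm_num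
      rw [h, padicValNat.mul (by norm_num) (by norm_num), padicValNat.prime_pow,
        padicValNat.eq_zero_of_not_dvd (by norm_num)]
    rw [this]; norm_num
  have h3 : w 3 ((28 : ℕ) : ℤ) = 1 := w_eq_one_of_not_dvd (by norm_num)
  unfold predicted
  rw [if_pos (by decide), h2, h3]
  norm_num [Nat.factorial]

/-- **The conjectured identity is false**: `28!_{P_3}` is defined, and the ratio
`28!_{P_3} / 28!_P` is not the predicted value `3! * w_2(28) * w_3(28)`. -/
theorem result :
    ∃ n : ℕ, 1 ≤ n ∧ Defined tripletPrimes n ∧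
      (gfact tripletPrimes n : ℚ) / (gfact allPrimes n : ℚ) ≠ (predicted n : ℚ) := by
  refine ⟨28, by norm_num, defined_triplet, ?_⟩
  rw [predicted_28]
  intro h
  have h0 : (gfact allPrimes 28 : ℚ) ≠ 0 := by exact_mod_cast gfact_all_ne_zero
  rw [div_eq_iff h0] at h
  have h1 : gfact tripletPrimes 28 = 24 * gfact allPrimes 28 := by exact_mod_cast h
  have h2 := dvd_gfact_triplet
  rw [h1, Nat.Prime.dvd_mul (by norm_num)] at h2
  rcases h2 with h2 | h2
  · norm_num at h2
  · exact not_dvd_gfact_all h2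

end Pool.Agent.Results.MP_1b3ee4_nt.Disproof
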